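import Pool.Agent.helper76.UF.Spec

set_option autoImplicit false

namespace Pool.Agent.UF

open Finset Polynomial NumberField

theorem PDI : PDI_stmt := by
  intro R _ f F D hF hfF hD h1 h2
  constructor
  · intro htop
    have h3 : (1 : R) ∈ Ideal.span {(D : R), f} := by
      rw [htop]
      exact Submodule.mem_top
    rw [Ideal.mem_span_pair] at h3
    obtain ⟨u, v, huv⟩ := h3
    obtain ⟨k, rfl⟩ := hD
    have h4 : f ∣ (((k : ℕ) : ℤ) : R) := by
      have e : (((k : ℕ) : ℤ) : R) = u * ((D * k : ℕ) : R) + v * k * f := by
        push_cast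
        linear_combination (-(k : R)) * huv
      rw [e]
      exact dvd_add (Dvd.dvd.mul_left hfF u) (Dvd.intro_left _ rfl)
    have h5 := hF k h4
    have h6 : D * k ∣ k := by exact_mod_cast h5
    have hk : 0 < k := by
      rcases Nat.eq_zero_or_pos k with h | h
      · subst h
        omega
      · exact h
    have h7 := Nat.le_of_dvd hk h6
    have h8 : 2 * k ≤ D * k := Nat.mul_le_mul_right k h1
    omega
  · intro he
    have h3 : (D : R) ∈ Ideal.span {f} := by
      rw [← he, Ideal.mem_span_pair]
      exact ⟨1, 0, by ring⟩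
    rw [Ideal.mem_span_singleton] at h3
    have h4 : f ∣ (((D : ℕ) : ℤ) : R) := by
      rw [Int.cast_natCast]
      exact h3
    have h5 := hF D h4
    have h6 : F ∣ D := by exact_mod_cast h5
    have h7 := Nat.le_of_dvd (by omega) h6
    omega

end Pool.Agent.UF
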