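import Pool.Agent.helper76.UF.Spec

set_option autoImplicit false

namespace Pool.Agent.UF

open Finset Polynomial NumberField

theorem SUP (h1 : CST_stmt) (h2 : TBD_stmt) : SUP_stmt := by
  intro N R _ x b hN hC hb a s ρ hρ
  obtain ⟨c, hc⟩ := hC.2.1 ρ
  obtain ⟨e, he⟩ := hC.2.1 (s.map (ff a x)).prod
  obtain ⟨d, hd⟩ := hC.2.1 (ρ * b ρ)
  have h3 := h1 N R x b hN hC.1 hb c d (by rw [← hc]; exact hd)
  have h4 := h1 N R x b hN hC.1 hb e d (by rw [← he, ← hρ]; exact hd)
  have h5 := h2 N R x hN hC a s e he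
  refine ⟨c, hc, ?_⟩
  have h6 : (((range N).filter (fun i => c i ≠ 0)).card : ℤ) ≤ ∑ i ∈ range N, (c i) ^ 2 := by
    rw [Finset.card_eq_sum_ones, Nat.cast_sum, Finset.sum_filter]
    apply Finset.sum_le_sum
    intro i _
    by_cases h : c i = 0
    · rw [if_neg (by rw [ne_eq, not_not]; exact h)]
      exact sq_nonneg _
    · rw [if_pos h, Nat.cast_one]
      have h7 : 0 < (c i) ^ 2 := by positivity
      omega
  have h8 : (((range N).filter (fun i => c i ≠ 0)).card : ℤ) ≤ ((a : ℤ) + 1) ^ (2 * Multiset.card s) := by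
    rw [h4] at h3
    linarith
  exact_mod_cast h8

end Pool.Agent.UF
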